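import Pool.Agent.H247.SD.Stm

/-! Project SD (helper247), task 15991: `S_IN`, the increment of the form on differences. -/

set_option autoImplicit false

open scoped Manifold ContDiff Topology
open Filter Set Metric

universe u

namespace Pool.Agent.H585.SD

open Pool.Agent.H718R2.G
open Pool.Agent.H247.SD
open Pool.Agent.K7.H85.KH (DN DE qform diff_md de_comp)

theorem abs_lemma {E F : Type} [NormedAddCommGroup E] [NormedSpace ℝ E] [ProperSpace E]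
    [NormedAddCommGroup F] [NormedSpace ℝ F] (L L2 : E →L[ℝ] F) (b1 b2 : F →L[ℝ] F →L[ℝ] ℝ)
    (h : ∀ v, v ≠ 0 → b1 (L v) (L v) < b2 (L2 v) (L2 v)) :
    ∃ c η : ℝ, 0 < c ∧ 0 < η ∧ ∀ B1 B2 : F →L[ℝ] F →L[ℝ] ℝ, dist B1 b1 < η → dist B2 b2 < η →
      ∀ (w : E) (y1 y2 : F), ‖y1 - L w‖ ≤ η * ‖w‖ → ‖y2 - L2 w‖ ≤ η * ‖w‖ →
        c * ‖y1‖ ^ 2 ≤ B2 y2 y2 - B1 y1 y1 := by
  have hev : ∀ᶠ x : ℝ × (F →L[ℝ] F →L[ℝ] ℝ) × (F →L[ℝ] F →L[ℝ] ℝ) × F × F in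
      𝓝 ((0 : ℝ), b1, b2, (0 : F), (0 : F)), ∀ w ∈ sphere (0 : E) 1,
      x.1 * ‖L w + x.2.2.2.1‖ ^ 2 < x.2.2.1 (L2 w + x.2.2.2.2) (L2 w + x.2.2.2.2) -
        x.2.1 (L w + x.2.2.2.1) (L w + x.2.2.2.1) := by
    refine (isCompact_sphere (0 : E) 1).eventually_forall_of_forall_eventually fun w hw => ?_
    refine ContinuousAt.eventually_lt (f := fun z : (ℝ × (F →L[ℝ] F →L[ℝ] ℝ) ×
      (F →L[ℝ] F →L[ℝ] ℝ) × F × F) × E => z.1.1 * ‖L z.2 + z.1.2.2.2.1‖ ^ 2)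
      (g := fun z : (ℝ × (F →L[ℝ] F →L[ℝ] ℝ) × (F →L[ℝ] F →L[ℝ] ℝ) × F × F) × E =>
        z.1.2.2.1 (L2 z.2 + z.1.2.2.2.2) (L2 z.2 + z.1.2.2.2.2) -
        z.1.2.1 (L z.2 + z.1.2.2.2.1) (L z.2 + z.1.2.2.2.1)) ?_ ?_ ?_
    · apply Continuous.continuousAt
      fun_prop
    · apply Continuous.continuousAt
      fun_prop
    · have hw0 : w ≠ 0 := by
        rintro rfl
        simp at hw
      have := h w hw0
      simp only [zero_mul, add_zero]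
      linarith
  obtain ⟨ε, hε, hball⟩ := (Metric.eventually_nhds_iff (α := ℝ × (F →L[ℝ] F →L[ℝ] ℝ) ×
    (F →L[ℝ] F →L[ℝ] ℝ) × F × F)).1 hev
  refine ⟨ε / 2, ε / 2, half_pos hε, half_pos hε, fun B1 B2 hB1 hB2 w y1 y2 h1 h2 => ?_⟩
  by_cases hw : w = 0
  · subst hw
    rw [norm_zero, mul_zero, map_zero, sub_zero] at h1 h2
    have e1 : y1 = 0 := norm_le_zero_iff.1 h1
    have e2 : y2 = 0 := norm_le_zero_iff.1 h2
    rw [e1, e2]
    simp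
  · have ht : 0 < ‖w‖ := norm_pos_iff.2 hw
    obtain ⟨t, htd⟩ : ∃ t, t = ‖w‖ := ⟨_, rfl⟩
    rw [← htd] at ht h1 h2
    have k1 : ‖t⁻¹ • (y1 - L w)‖ ≤ ε / 2 := by
      rw [norm_smul, norm_inv, Real.norm_of_nonneg ht.le, inv_mul_le_iff₀ ht]
      linarith
    have k2 : ‖t⁻¹ • (y2 - L2 w)‖ ≤ ε / 2 := by
      rw [norm_smul, norm_inv, Real.norm_of_nonneg ht.le, inv_mul_le_iff₀ ht]
      linarith
    have hd : dist ((ε / 2 : ℝ), B1, B2, t⁻¹ • (y1 - L w), t⁻¹ • (y2 - L2 w))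
        ((0 : ℝ), b1, b2, (0 : F), (0 : F)) < ε := by
      simp only [Prod.dist_eq, max_lt_iff, dist_zero_right, Real.norm_eq_abs]
      refine ⟨?_, ?_, ?_, ?_, ?_⟩
      · rw [abs_of_pos (half_pos hε)]
        linarith
      · linarith
      · linarith
      · linarith
      · linarith
    have h3 := hball hd (t⁻¹ • w) (by
      rw [mem_sphere_zero_iff_norm, norm_smul, norm_inv, Real.norm_of_nonneg ht.le, ← htd,
        inv_mul_cancel₀ ht.ne'])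
    simp only [map_smul, ← smul_add, add_sub_cancel] at h3
    have e1 : t⁻¹ • L w + t⁻¹ • (y1 - L w) = t⁻¹ • y1 := by
      rw [← smul_add, add_sub_cancel]
    have e2 : t⁻¹ • L2 w + t⁻¹ • (y2 - L2 w) = t⁻¹ • y2 := by
      rw [← smul_add, add_sub_cancel]
    simp only [norm_smul, norm_inv, Real.norm_of_nonneg ht.le, ContinuousLinearMap.smul_apply,
      smul_eq_mul] at h3
    have h4 : t ^ 2 * (ε / 2 * (t⁻¹ * ‖y1‖) ^ 2) <
        t ^ 2 * (t⁻¹ * (t⁻¹ * B2 y2 y2) - t⁻¹ * (t⁻¹ * B1 y1 y1)) :=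
      mul_lt_mul_of_pos_left h3 (by positivity)
    have h5 : t ^ 2 * (ε / 2 * (t⁻¹ * ‖y1‖) ^ 2) = ε / 2 * ‖y1‖ ^ 2 := by
      field_simp
    have h6 : t ^ 2 * (t⁻¹ * (t⁻¹ * B2 y2 y2) - t⁻¹ * (t⁻¹ * B1 y1 y1)) = B2 y2 y2 - B1 y1 y1 := by
      field_simp
    rw [h5, h6] at h4
    exact h4.le

section chart

variable {n : ℕ} {N : Type u} [TopologicalSpace N] [ChartedSpace (V n) N]

theorem de_eq {d : ℕ} {f : N → V d} {x : N} (hf : MDifferentiableAt (𝓡 n) (𝓡 d) f x) :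
    DE n f x = fderiv ℝ (fun u => f ((chartAt (V n) x).symm u)) (chartAt (V n) x x) := by
  have h1 := hf.mfderiv
  unfold DE
  rw [h1]
  simp only [writtenInExtChartAt, mfld_simps, fderivWithin_univ]
  rfl

theorem cd_chart {d : ℕ} {f : N → V d} {x : N} (hf : ContMDiffAt (𝓡 n) (𝓡 d) 1 f x) :
    ContDiffAt ℝ 1 (fun u => f ((chartAt (V n) x).symm u)) (chartAt (V n) x x) := by
  have h1 := (contMDiffAt_iff.1 hf).2
  simp only [mfld_simps, contDiffWithinAt_univ] at h1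
  exact h1

end chart

theorem main : S_IN.{u} := by
  intro n N _ _ _ _ _ r hr G d e he B hB x₀ hq
  have he1 : ContMDiff (𝓡 n) (𝓡 d) 1 e := he.of_le (by exact_mod_cast le_top)
  have hG1 : ContMDiff (𝓡 n) (𝓡 n) 1 G := G.contMDiff.of_le (by exact_mod_cast hr)
  have heG : ContMDiff (𝓡 n) (𝓡 d) 1 (e ∘ G) := he1.comp hG1
  obtain ⟨φ, hφ⟩ : ∃ φ, φ = chartAt (V n) x₀ := ⟨_, rfl⟩
  have c1 := cd_chart (he1.contMDiffAt (x := x₀))
  have c2 := cd_chart (heG.contMDiffAt (x := x₀))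
  have d1 := de_eq ((he1.contMDiffAt (x := x₀)).mdifferentiableAt (by simp))
  have d2 := de_eq ((heG.contMDiffAt (x := x₀)).mdifferentiableAt (by simp))
  rw [← hφ] at c1 c2 d1 d2
  have s1 := c1.hasStrictFDerivAt (by simp)
  have s2 := c2.hasStrictFDerivAt (by simp)
  rw [← d1] at s1
  rw [← d2] at s2
  obtain ⟨c, η, hc, hη, hmain⟩ := abs_lemma (DE n e x₀) (DE n (e ∘ G) x₀) (B x₀) (B (G x₀)) (by
    intro v hv
    have h1 := hq v hv
    unfold qform at h1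
    rw [de_comp he1 (diff_md hr G x₀)]
    exact h1)
  have hφc : ContinuousAt φ x₀ := by
    rw [hφ]
    exact (chartAt (V n) x₀).continuousAt (mem_chart_source (V n) x₀)
  have hsrc : ∀ᶠ x in 𝓝 x₀, x ∈ φ.source := by
    rw [hφ]
    exact (chartAt (V n) x₀).open_source.mem_nhds (mem_chart_source (V n) x₀)
  have ht : Tendsto (fun z : N × N => (φ z.2, φ z.1)) (𝓝 (x₀, x₀)) (𝓝 (φ x₀, φ x₀)) := by
    refine Tendsto.prodMk_nhds ?_ ?_
    · exact hφc.tendsto.comp (continuous_snd.tendsto' _ _ rfl)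
    · exact hφc.tendsto.comp (continuous_fst.tendsto' _ _ rfl)
  have v1 := ht.eventually (s1.isLittleO.def hη)
  have v2 := ht.eventually (s2.isLittleO.def hη)
  have v3 : ∀ᶠ z : N × N in 𝓝 (x₀, x₀), z.1 ∈ φ.source :=
    (continuous_fst.tendsto' _ _ rfl : Tendsto (Prod.fst : N × N → N) (𝓝 (x₀, x₀)) (𝓝 x₀)).eventually
      hsrc
  have v4 : ∀ᶠ z : N × N in 𝓝 (x₀, x₀), z.2 ∈ φ.source :=
    (continuous_snd.tendsto' _ _ rfl : Tendsto (Prod.snd : N × N → N) (𝓝 (x₀, x₀)) (𝓝 x₀)).eventually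
      hsrc
  have v5 : ∀ᶠ z : N × N in 𝓝 (x₀, x₀), dist (B z.1) (B x₀) < η :=
    ((hB.comp continuous_fst).tendsto' (x₀, x₀) (B x₀) rfl).eventually
      (p := fun b => dist b (B x₀) < η) (Metric.ball_mem_nhds (B x₀) hη)
  have v6 : ∀ᶠ z : N × N in 𝓝 (x₀, x₀), dist (B (G z.1)) (B (G x₀)) < η :=
    ((hB.comp (G.continuous.comp continuous_fst)).tendsto' (x₀, x₀) (B (G x₀)) rfl).eventually
      (p := fun b => dist b (B (G x₀)) < η) (Metric.ball_mem_nhds (B (G x₀)) hη)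
  have hall := (((v1.and v2).and (v3.and v4)).and (v5.and v6))
  rw [nhds_prod_eq] at hall
  obtain ⟨W, hW, hsub⟩ := mem_prod_same_iff.1 hall
  refine ⟨W, hW, c, hc, fun x hx y hy => ?_⟩
  obtain ⟨⟨⟨w1, w2⟩, w3, w4⟩, w5, w6⟩ := hsub (mk_mem_prod hx hy)
  simp only at w1 w2 w3 w4 w5 w6
  rw [φ.left_inv w3, φ.left_inv w4] at w1 w2
  exact hmain (B x) (B (G x)) w5 w6 (φ y - φ x) (e y - e x) (e (G y) - e (G x)) w1 w2

end Pool.Agent.H585.SD
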